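import Pool.Agent.helper80.HM.SpecD

/-!
# Row hm:NPC: the half clique language is complete
-/

set_option autoImplicit false

namespace Pool.Agent.HM

open Finset Pool.Agent.helper38.Neg Pool.Agent.helper55.NT
open Pool.Agent.LN (HC)

private theorem NPC_mono (q : Polynomial ℕ) {a b : ℕ} (h : a ≤ b) : q.eval a ≤ q.eval b := by
  rw [Polynomial.eval_eq_sum_range, Polynomial.eval_eq_sum_range]
  exact Finset.sum_le_sum fun i _ => Nat.mul_le_mul_left _ (Nat.pow_le_pow_left h _)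

private noncomputable def NPC_m (p : Polynomial ℕ) : Polynomial ℕ :=
  4 * Polynomial.X + 10 * p + 2

private theorem NPC_m_eval (p : Polynomial ℕ) (n : ℕ) :
    (NPC_m p).eval n = 4 * n + 10 * p.eval n + 2 := by
  simp [NPC_m]

private theorem NPC_le (p : Polynomial ℕ) {n w s : ℕ} (hw : w ≤ p.eval n) (hs : s ≤ p.eval n) :
    nM n w s * nM n w s ≤ (NPC_m p * NPC_m p).eval n := by
  have h : nM n w s ≤ (NPC_m p).eval n := by
    rw [NPC_m_eval]
    unfold nM
    omega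
  rw [Polynomial.eval_mul]
  exact Nat.mul_le_mul h h

theorem NPC (hNRE : NRE_stmt) : NPC_stmt := by
  constructor
  · rintro ⟨q, hq⟩ A ⟨p, hp⟩
    refine ⟨q.comp (NPC_m p * NPC_m p) + Polynomial.X + 2, fun n => ?_⟩
    obtain ⟨w, s, hw, hs, C, o, hC⟩ := hp n
    obtain ⟨r, hr, D, o', hD⟩ := hq (nM n w s * nM n w s)
    obtain ⟨s', hs', C', o'', hC'⟩ := hNRE C o D o' hD
    refine ⟨s', ?_, C', o'', fun x => (hC' x).trans (hC x).symm⟩
    have h1 : (q.comp (NPC_m p * NPC_m p) + Polynomial.X + 2).eval n =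
        q.eval ((NPC_m p * NPC_m p).eval n) + n + 2 := by
      simp [Polynomial.eval_comp]
    rw [h1]
    have h2 := NPC_mono q (NPC_le p hw hs)
    omega
  · rintro ⟨k, hk⟩ A ⟨p, hp⟩
    obtain ⟨k1, hk1⟩ := eval_le_two_pow (NPC_m p * NPC_m p + 2)
    refine ⟨k * k1 ^ k + k + 3, fun n => ?_⟩
    obtain ⟨w, s, hw, hs, C, o, hC⟩ := hp n
    obtain ⟨r, hr, D, o', hD⟩ := hk (nM n w s * nM n w s)
    obtain ⟨s', hs', C', o'', hC'⟩ := hNRE C o D o' hD
    refine ⟨s', ?_, C', o'', fun x => (hC' x).trans (hC x).symm⟩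
    have hL : 1 ≤ lg n := lg_pos n
    have h1 : lg (nM n w s * nM n w s) ≤ k1 * lg n := by
      have h2 : nM n w s * nM n w s + 2 ≤ 2 ^ (k1 * lg n) := by
        have h3 := hk1 n
        rw [Polynomial.eval_add, pow_one] at h3
        have h4 : (2 : Polynomial ℕ).eval n = 2 := by simp
        rw [h4] at h3
        have h5 := NPC_le p hw hs
        omega
      change Nat.log 2 (nM n w s * nM n w s + 2) ≤ k1 * lg n
      calc Nat.log 2 (nM n w s * nM n w s + 2) ≤ Nat.log 2 (2 ^ (k1 * lg n)) :=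
            Nat.log_mono_right h2
        _ = k1 * lg n := Nat.log_pow (by norm_num) _
    have h6 : k * lg (nM n w s * nM n w s) ^ k ≤ k * k1 ^ k * lg n ^ k := by
      calc k * lg (nM n w s * nM n w s) ^ k ≤ k * (k1 * lg n) ^ k :=
            Nat.mul_le_mul_left _ (Nat.pow_le_pow_left h1 _)
        _ = k * k1 ^ k * lg n ^ k := by rw [mul_pow]; ring
    have h7 : r ≤ 2 ^ (k * k1 ^ k * lg n ^ k) := hr.trans (Nat.pow_le_pow_right (by norm_num) h6)
    have h8 : n + 2 < 2 ^ (lg n + 1) := lt_two_pow_lg n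
    have h9 : 2 ^ (k * k1 ^ k * lg n ^ k) + 2 ^ (lg n + 1) ≤
        2 ^ (k * k1 ^ k * lg n ^ k + (lg n + 1) + 1) := by
      have ha : 2 ^ (k * k1 ^ k * lg n ^ k) ≤ 2 ^ (k * k1 ^ k * lg n ^ k + (lg n + 1)) :=
        Nat.pow_le_pow_right (by norm_num) (by omega)
      have hb : 2 ^ (lg n + 1) ≤ 2 ^ (k * k1 ^ k * lg n ^ k + (lg n + 1)) :=
        Nat.pow_le_pow_right (by norm_num) (by omega)
      rw [pow_succ 2 (k * k1 ^ k * lg n ^ k + (lg n + 1))]
      omega
    have h10 : k * k1 ^ k * lg n ^ k + (lg n + 1) + 1 ≤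
        (k * k1 ^ k + k + 3) * lg n ^ (k * k1 ^ k + k + 3) := by
      set E := k * k1 ^ k with hE
      have ha : lg n ^ k ≤ lg n ^ (E + k + 3) := Nat.pow_le_pow_right hL (by omega)
      have hb : lg n ≤ lg n ^ (E + k + 3) := by
        calc lg n = lg n ^ 1 := (pow_one _).symm
          _ ≤ lg n ^ (E + k + 3) := Nat.pow_le_pow_right hL (by omega)
      have hc : 1 ≤ lg n ^ (E + k + 3) := Nat.one_le_pow _ _ hL
      calc E * lg n ^ k + (lg n + 1) + 1
          ≤ E * lg n ^ (E + k + 3) + (lg n ^ (E + k + 3) + lg n ^ (E + k + 3)) +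
            lg n ^ (E + k + 3) := by
            have := Nat.mul_le_mul_left E ha
            omega
        _ = (E + 3) * lg n ^ (E + k + 3) := by ring
        _ ≤ (E + k + 3) * lg n ^ (E + k + 3) := Nat.mul_le_mul_right _ (by omega)
    calc s' ≤ r + n + 2 := hs'
      _ ≤ 2 ^ (k * k1 ^ k * lg n ^ k) + 2 ^ (lg n + 1) := by omega
      _ ≤ 2 ^ (k * k1 ^ k * lg n ^ k + (lg n + 1) + 1) := h9
      _ ≤ 2 ^ ((k * k1 ^ k + k + 3) * lg n ^ (k * k1 ^ k + k + 3)) :=
        Nat.pow_le_pow_right (by norm_num) h10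

end Pool.Agent.HM
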